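import Pool.Agent.W282.EZ.Par

/-!
# MP_dd1803_nt: Zilber-Pink in `E^n` for almost all algebraic subgroups, `E` with complex
multiplication

Let `E : y ^ 2 = x ^ 3 + A x + B` be an elliptic curve over `ℂ` with complex multiplication by the
order `𝒪 = ℤ[φ]`. The algebraic subgroups of `E^n` of codimension `r` are, up to finite index,
the groups `H(lam) = {P : ∑_j lam_{tj} P_j = 0, t = 1, …, r}` for the `r × n` matrices `lam` of
rank `r` over `𝒪`. We write the entries of `lam` as `λ + μ φ` with integers `λ`, `μ`.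

Let `V` be an irreducible subvariety of `E^n` of dimension `m`, contained in `(E ∖ {O})^n` (which
means that we remove the points with a component `O`). We prove, for all `V` and all `r`: for almost
all matrices `lam` of size at most `B` every irreducible subset of `V ∩ H(lam)` has dimension at
most `m - r`, or it is a torsion point of `E^n`. So for almost all algebraic subgroups of any
codimension `V` has no atypical intersection with the subgroup, except for torsion points, which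
lie in finitely many special subvarieties of `V` by the theorem of Manin-Mumford (Raynaud).
There are about `B ^ (2 n r)` matrices of size at most `B`, and the number of exceptions is at most
`C deg(V) B ^ (2 n r - 2 δ) (log B) ^ r` with `δ = 1` in general, and with
`δ = min (r, N (r - s) - s)`, `s = min (m, r - 1)`, if no algebraic subgroup of dimension less than
`N` contains `V`.
-/

open MvPolynomial
open scoped ENNReal

namespace Pool.Agent.Results.MP_dd1803_nt.AlmostAllSubgroupsCM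

open Pool.Agent.W282.ZP Pool.Agent.W282.DZ Pool.Agent.W282.EZ

section field

variable {K : Type} [Field K]

open Classical in
/-- The point with Jacobian coordinates `(X : Y : T)` of the curve `y ^ 2 = x ^ 3 + A x + B`:
the point `(X / T ^ 2, Y / T ^ 3)`, and the origin for `T = 0`. -/
noncomputable def jac (A B X Y T : K) : (cv A B).Point :=
  if T = 0 then 0 else pt A B (X / T ^ 2) (Y / T ^ 3)

open Classical in
/-- The elliptic curve `y ^ 2 = x ^ 3 + A x + B` has complex multiplication by `ℤ[φ]`: `φ` is an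
endomorphism with `φ ^ 2 = a φ + b`, `a ^ 2 + 4 b < 0`, such that a multiple `c φ` is given in
Jacobian coordinates by polynomials `Φ`, `Ω`, `Ψ` in the affine coordinates. -/
structure CM (A B : K) where
  φ : (cv A B).Point →+ (cv A B).Point
  a : ℤ
  b : ℤ
  sq : ∀ P, φ (φ P) = a • φ P + b • P
  neg : a ^ 2 + 4 * b < 0
  c : ℕ
  pos : 0 < c
  Φ : MvPolynomial (Fin 2) K
  Ω : MvPolynomial (Fin 2) K
  Ψ : MvPolynomial (Fin 2) K
  eqn : ∀ x y : K, y ^ 2 = x ^ 3 + A * x + B →
    eval ![x, y] Ω ^ 2 = eval ![x, y] Φ ^ 3 + A * eval ![x, y] Φ * eval ![x, y] Ψ ^ 4 +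
      B * eval ![x, y] Ψ ^ 6 ∧ (eval ![x, y] Φ ≠ 0 ∨ eval ![x, y] Ψ ≠ 0)
  val : ∀ x y : K, y ^ 2 = x ^ 3 + A * x + B →
    c • φ (pt A B x y) = jac A B (eval ![x, y] Φ) (eval ![x, y] Ω) (eval ![x, y] Ψ)

/-- The `j`-th component `(x_j, y_j)` of the point `s = (x_1, …, x_n, y_1, …, y_n)` of `E^n`. -/
noncomputable def cmp (A B : K) {n : ℕ} (s : Fin (n + n) → K) (j : Fin n) : (cv A B).Point :=
  pt A B (s (Fin.castAdd n j)) (s (Fin.natAdd n j))

open Classical in
/-- `∑_j (λ_j + μ_j φ) P_j = 0`, where `a = (λ_1, …, λ_n, μ_1, …, μ_n)`. -/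
def Rel {A B : K} (cm : CM A B) {n : ℕ} (a : Fin (n + n) → ℤ) (s : Fin (n + n) → K) : Prop :=
  ∑ j : Fin n, (a (Fin.castAdd n j) • cmp A B s j + a (Fin.natAdd n j) • cm.φ (cmp A B s j)) = 0

open Classical in
/-- All components of the point `s` of `E^n` have finite order, dividing `k`. -/
def Torsion (A B : K) {n : ℕ} (k : ℕ) (s : Fin (n + n) → K) : Prop :=
  ∀ j : Fin n, k • cmp A B s j = 0

theorem jac_eq (A B X Y T : K) : jac A B X Y T = pt A B (jx X T) (jy B Y T) := by
  classical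
  rw [jac]
  by_cases h : T = 0
  · rw [if_pos h, h, pt_zero]
  · rw [if_neg h, jx, jy, if_neg h]

end field

/-- `V` is contained in `(E ∖ {O})^n`. -/
def InPower (A B : ℂ) {n : ℕ} (V : Set (Fin (n + n) → ℂ)) : Prop :=
  ∀ s ∈ V, ∀ j : Fin n, s (Fin.natAdd n j) ^ 2 =
    s (Fin.castAdd n j) ^ 3 + A * s (Fin.castAdd n j) + B

/-- For all `lam` of size at most `B'` outside of a set of at most `M` exceptions, every irreducible
subset of `V ∩ H(lam)` has dimension at most `m - r`, or is a torsion point. -/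
def TypicalAllBut {A B : ℂ} (cm : CM A B) {n : ℕ} (V : Set (Fin (n + n) → ℂ)) (m r B' : ℕ)
    (M : ℝ≥0∞) : Prop :=
  ∃ Ex : Finset (Fin r → Fin (n + n) → ℤ), (Ex.card : ℝ≥0∞) ≤ M ∧
    ∀ lam : Fin r → Fin (n + n) → ℤ, lam ∉ Ex → (∀ t j, |lam t j| ≤ (B' : ℤ)) →
      ∀ W ⊆ V, (idealOf W).IsPrime → (∀ s ∈ W, ∀ t, Rel cm (lam t) s) →
        zdim W + (r : Cardinal) ≤ (m : Cardinal) ∨
          ∃ s, W = {s} ∧ ∃ k : ℕ, 0 < k ∧ Torsion A B k s

/-- Every algebraic subgroup containing `V` has dimension at least `N`: the group of relations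
over `ℤ[φ]` valid on `V` has rank at most `2 (n - N)`. -/
def SubgroupDimGE {A B : ℂ} (cm : CM A B) {n : ℕ} (V : Set (Fin (n + n) → ℂ)) (N : ℕ) : Prop :=
  ∀ Λ : Submodule ℤ (Fin (n + n) → ℤ), (∀ a ∈ Λ, ∀ s ∈ V, Rel cm a s) →
    Module.finrank ℤ Λ + 2 * N ≤ 2 * n

/-- The sections `P_j` and `c φ P_j` over `(E ∖ {O})^n`. -/
noncomputable def scheme {A B : ℂ} (cm : CM A B) (n : ℕ) : Sec (n + n) (n + n) where
  A := C A
  B := C B
  X := Fin.append (fun j => X (Fin.castAdd n j))
    (fun j => aeval ![X (Fin.castAdd n j), X (Fin.natAdd n j)] cm.Φ)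
  Y := Fin.append (fun j => X (Fin.natAdd n j))
    (fun j => aeval ![X (Fin.castAdd n j), X (Fin.natAdd n j)] cm.Ω)
  T := Fin.append (fun _ => 1)
    (fun j => aeval ![X (Fin.castAdd n j), X (Fin.natAdd n j)] cm.Ψ)

theorem eval_aeval {n : ℕ} (s : Fin n → ℂ) (i j : Fin n) (F : MvPolynomial (Fin 2) ℂ) :
    eval s (aeval ![X i, X j] F) = eval ![s i, s j] F := by
  have h : (eval s).comp (aeval ![X i, X j] : MvPolynomial (Fin 2) ℂ →ₐ[ℂ] _).toRingHom =
      eval ![s i, s j] := by
    apply MvPolynomial.ringHom_ext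
    · intro r
      simp
    · intro k
      fin_cases k <;> simp
  exact congrArg (fun f : MvPolynomial (Fin 2) ℂ →+* ℂ => f F) h

theorem pt_jac_one {A B : ℂ} (x y : ℂ) : pt A B (jx x 1) (jy B y 1) = pt A B x y := by
  rw [jx, jy, if_neg one_ne_zero]
  simp

theorem rel_iff {A B : ℂ} (cm : CM A B) {n : ℕ} {s : Fin (n + n) → ℂ}
    (hs : ∀ j : Fin n, s (Fin.natAdd n j) ^ 2 =
      s (Fin.castAdd n j) ^ 3 + A * s (Fin.castAdd n j) + B) (a : Fin (n + n) → ℤ) :
    a ∈ (scheme cm n).rel (eval s) ↔ ∑ j : Fin n, (a (Fin.castAdd n j) • cmp A B s j +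
      a (Fin.natAdd n j) • (cm.c • cm.φ (cmp A B s j))) = 0 := by
  classical
  have hA : eval s (scheme cm n).A = A := eval_C A
  have hB : eval s (scheme cm n).B = B := eval_C B
  rw [Sec.rel, hA, hB, mem_LJ, Fin.sum_univ_add, Finset.sum_add_distrib]
  have h : ∀ j : Fin n, cm.c • cm.φ (cmp A B s j) =
      jac A B (eval ![s (Fin.castAdd n j), s (Fin.natAdd n j)] cm.Φ)
        (eval ![s (Fin.castAdd n j), s (Fin.natAdd n j)] cm.Ω)
        (eval ![s (Fin.castAdd n j), s (Fin.natAdd n j)] cm.Ψ) := fun j => cm.val _ _ (hs j)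
  simp only [scheme, Fin.append_left, Fin.append_right, eval_X, map_one, eval_aeval, pt_jac_one]
  simp only [← jac_eq, h]
  rfl


theorem on_of {A B : ℂ} (hΔ : 4 * A ^ 3 + 27 * B ^ 2 ≠ 0) (cm : CM A B) {n : ℕ}
    {V : Set (Fin (n + n) → ℂ)} (hV : InPower A B V) : (scheme cm n).On V := by
  intro s hs
  have hA : eval s (scheme cm n).A = A := eval_C A
  have hB : eval s (scheme cm n).B = B := eval_C B
  refine ⟨?_, fun j => ?_⟩
  · rw [map_add, map_mul, map_mul, map_pow, map_pow, map_ofNat, map_ofNat, hA, hB]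
    exact hΔ
  · rw [map_sub, map_add, map_add, map_mul, map_mul, map_mul, map_pow, map_pow, map_pow, map_pow,
      hA, hB, sub_eq_zero]
    refine Fin.addCases (fun j => ?_) (fun j => ?_) j
    · simp only [scheme, Fin.append_left, eval_X, map_one]
      refine ⟨?_, Or.inr one_ne_zero⟩
      linear_combination hV s hs j
    · simp only [scheme, Fin.append_right, eval_aeval]
      exact cm.eqn _ _ (hV s hs j)

/-- Multiplication by `c φ` on the vectors of integers. -/
def mulC {A B : ℂ} (cm : CM A B) (n : ℕ) : (Fin (n + n) → ℤ) →ₗ[ℤ] (Fin (n + n) → ℤ) where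
  toFun v := Fin.append (fun j => (cm.c ^ 2 * cm.b) * v (Fin.natAdd n j))
    (fun j => v (Fin.castAdd n j) + (cm.c * cm.a) * v (Fin.natAdd n j))
  map_add' v w := by
    funext i
    refine Fin.addCases (fun j => ?_) (fun j => ?_) i
    · simp only [Pi.add_apply, Fin.append_left]
      ring
    · simp only [Pi.add_apply, Fin.append_right]
      ring
  map_smul' k v := by
    funext i
    refine Fin.addCases (fun j => ?_) (fun j => ?_) i
    · simp only [Pi.smul_apply, Fin.append_left, smul_eq_mul, RingHom.id_apply]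
      ring
    · simp only [Pi.smul_apply, Fin.append_right, smul_eq_mul, RingHom.id_apply]
      ring

theorem mulC_left {A B : ℂ} (cm : CM A B) (n : ℕ) (v : Fin (n + n) → ℤ) (j : Fin n) :
    mulC cm n v (Fin.castAdd n j) = (cm.c ^ 2 * cm.b) * v (Fin.natAdd n j) := by
  simp only [mulC, LinearMap.coe_mk, AddHom.coe_mk, Fin.append_left]

theorem mulC_right {A B : ℂ} (cm : CM A B) (n : ℕ) (v : Fin (n + n) → ℤ) (j : Fin n) :
    mulC cm n v (Fin.natAdd n j) =
      v (Fin.castAdd n j) + (cm.c * cm.a) * v (Fin.natAdd n j) := by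
  simp only [mulC, LinearMap.coe_mk, AddHom.coe_mk, Fin.append_right]

theorem mulC_sq {A B : ℂ} (cm : CM A B) (n : ℕ) (v : Fin (n + n) → ℤ) :
    mulC cm n (mulC cm n v) = ((cm.c : ℤ) * cm.a) • mulC cm n v + ((cm.c : ℤ) ^ 2 * cm.b) • v := by
  funext i
  rw [Pi.add_apply, Pi.smul_apply, Pi.smul_apply, smul_eq_mul, smul_eq_mul]
  refine Fin.addCases (fun j => ?_) (fun j => ?_) i
  · rw [mulC_left, mulC_right, mulC_left]
    ring
  · rw [mulC_right, mulC_left, mulC_right]
    ring

theorem mulC_rel {A B : ℂ} (cm : CM A B) {n : ℕ} {s : Fin (n + n) → ℂ}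
    (hs : ∀ j : Fin n, s (Fin.natAdd n j) ^ 2 =
      s (Fin.castAdd n j) ^ 3 + A * s (Fin.castAdd n j) + B) (v : Fin (n + n) → ℤ)
    (hv : v ∈ (scheme cm n).rel (eval s)) : mulC cm n v ∈ (scheme cm n).rel (eval s) := by
  classical
  rw [rel_iff cm hs] at hv ⊢
  have h1 := congrArg (fun P => cm.c • cm.φ P) hv
  simp only [map_zero, smul_zero] at h1
  rw [← h1, map_sum, Finset.smul_sum]
  refine Finset.sum_congr rfl fun j _ => ?_
  rw [mulC_left, mulC_right, map_add, map_zsmul, map_zsmul, map_nsmul, cm.sq]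
  module

theorem singleton_of_torsion {A B : ℂ} (hΔ : 4 * A ^ 3 + 27 * B ^ 2 ≠ 0) {n : ℕ}
    {W : Set (Fin (n + n) → ℂ)} (hW : (idealOf W).IsPrime) (hin : InPower A B W) {k : ℕ}
    (hk : 0 < k) (ht : ∀ s ∈ W, Torsion A B k s) : ∃ s, W = {s} := by
  classical
  have hx : ∀ j : Fin n, ∃ c, ∀ s ∈ W, s (Fin.castAdd n j) = c := fun j =>
    const_of_root hW (Fin.castAdd n j) _ _ le_rfl (tors_poly_ne A B hk) fun s hs =>
      tors_root hΔ (hin s hs j) (ht s hs j)
  choose x hx using hx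
  have hy : ∀ j : Fin n, ∃ c, ∀ s ∈ W, s (Fin.natAdd n j) = c := fun j => by
    refine const_of_root hW (Fin.natAdd n j) _
      (Polynomial.X ^ 2 - Polynomial.C (x j ^ 3 + A * x j + B)) le_rfl
      (Polynomial.X_pow_sub_C_ne_zero (by norm_num) _) fun s hs => ?_
    have h1 := hin s hs j
    rw [hx j s hs] at h1
    simp only [Polynomial.eval_sub, Polynomial.eval_pow, Polynomial.eval_X, Polynomial.eval_C]
    rw [h1, sub_self]
  choose y hy using hy
  obtain ⟨s, hs⟩ := nonempty_of_prime hW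
  refine ⟨s, Set.eq_singleton_iff_unique_mem.2 ⟨hs, fun t ht' => ?_⟩⟩
  funext i
  refine Fin.addCases (fun j => ?_) (fun j => ?_) i
  · rw [hx j t ht', hx j s hs]
  · rw [hy j t ht', hy j s hs]

/-- The vector `(c λ, μ)`. -/
def scl (c : ℕ) {n : ℕ} (v : Fin (n + n) → ℤ) : Fin (n + n) → ℤ :=
  Fin.append (fun j => (c : ℤ) * v (Fin.castAdd n j)) (fun j => v (Fin.natAdd n j))

theorem scl_left (c : ℕ) {n : ℕ} (v : Fin (n + n) → ℤ) (j : Fin n) :
    scl c v (Fin.castAdd n j) = (c : ℤ) * v (Fin.castAdd n j) := by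
  simp only [scl, Fin.append_left]

theorem scl_right (c : ℕ) {n : ℕ} (v : Fin (n + n) → ℤ) (j : Fin n) :
    scl c v (Fin.natAdd n j) = v (Fin.natAdd n j) := by
  simp only [scl, Fin.append_right]

theorem scl_rel {A B : ℂ} (cm : CM A B) {n : ℕ} {s : Fin (n + n) → ℂ}
    (hs : ∀ j : Fin n, s (Fin.natAdd n j) ^ 2 =
      s (Fin.castAdd n j) ^ 3 + A * s (Fin.castAdd n j) + B) (v : Fin (n + n) → ℤ)
    (hv : Rel cm v s) : scl cm.c v ∈ (scheme cm n).rel (eval s) := by
  classical
  rw [rel_iff cm hs]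
  rw [Rel] at hv
  have h1 := congrArg (fun P => cm.c • P) hv
  simp only [smul_zero] at h1
  rw [← h1, Finset.smul_sum]
  refine Finset.sum_congr rfl fun j _ => ?_
  rw [scl_left, scl_right]
  module

/-- Uniform version of the exceptional sets. -/
theorem typical_of_main {A B : ℂ} (hΔ : 4 * A ^ 3 + 27 * B ^ 2 ≠ 0) (cm : CM A B) {n : ℕ}
    {V : Set (Fin (n + n) → ℂ)} (hin : InPower A B V) {m r B' : ℕ}
    (hm : dimQ (idealOf V) = m) {M : ℝ≥0∞}
    (h : (scheme cm n).AllBut V r (cm.c * B') M) : TypicalAllBut cm V m r B' M := by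
  classical
  obtain ⟨X', hX', h⟩ := h
  have hinj : Function.Injective fun (lam : Fin r → Fin (n + n) → ℤ) t => scl cm.c (lam t) := by
    intro lam lam' hll
    funext t i
    have h1 := congrFun hll t
    have hc : (cm.c : ℤ) ≠ 0 := by
      have := cm.pos
      omega
    refine Fin.addCases (fun j => ?_) (fun j => ?_) i
    · have h2 := congrFun h1 (Fin.castAdd n j)
      simp only [scl_left] at h2
      exact mul_left_cancel₀ hc h2
    · have h2 := congrFun h1 (Fin.natAdd n j)
      simp only [scl_right] at h2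
      exact h2
  refine ⟨X'.preimage _ hinj.injOn, ?_, fun lam hlam hsize W hWV hW hrel => ?_⟩
  · refine le_trans (Nat.cast_le.2 ?_) hX'
    exact Finset.card_le_card_of_injOn _ (fun lam hlam => Finset.mem_preimage.1 hlam) hinj.injOn
  · have hlam' : (fun t => scl cm.c (lam t)) ∉ X' := fun hmem => hlam (Finset.mem_preimage.2 hmem)
    have hinW : InPower A B W := fun s hs => hin s (hWV hs)
    have hsize' : ∀ t j, |scl cm.c (lam t) j| ≤ ((cm.c * B' : ℕ) : ℤ) := by
      intro t i
      push_cast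
      have hc : (1 : ℤ) ≤ cm.c := by
        have := cm.pos
        omega
      refine Fin.addCases (fun j => ?_) (fun j => ?_) i
      · rw [scl_left, abs_mul, Nat.abs_cast]
        exact mul_le_mul_of_nonneg_left (hsize t _) (by omega)
      · rw [scl_right]
        have h1 := hsize t (Fin.natAdd n j)
        have h2 : (0 : ℤ) ≤ B' := by omega
        nlinarith
    have h1 := h _ hlam' hsize' W hWV hW fun t => (scheme cm n).mem_relOn.2 fun s hs =>
      scl_rel cm (hinW s hs) _ (hrel s hs t)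
    rcases h1 with h1 | ⟨k, hk, h1⟩
    · left
      have h2 : zdim W = (dimQ (idealOf W) : Cardinal) :=
        (Cardinal.cast_toNat_of_lt_aleph0 (trdeg_lt (idealOf W) hW)).symm
      rw [h2, ← hm]
      exact_mod_cast h1
    · right
      have htor : ∀ s ∈ W, Torsion A B k s := by
        intro s hs j
        have h2 := (rel_iff cm (hinW s hs) _).1
          ((scheme cm n).mem_relOn.1 (h1 (Fin.castAdd n j)) s hs)
        rw [Finset.sum_eq_single j] at h2
        · rw [Pi.smul_apply, Pi.smul_apply, Pi.single_eq_same, Pi.single_eq_of_ne (by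
            intro he
            have := congrArg Fin.val he
            simp at this
            omega), smul_zero, zero_zsmul, add_zero, smul_eq_mul, mul_one, natCast_zsmul] at h2
          exact h2
        · intro i _ hij
          rw [Pi.smul_apply, Pi.smul_apply, Pi.single_eq_of_ne (by
            intro he
            exact hij (Fin.castAdd_injective n n he)), Pi.single_eq_of_ne (by
            intro he
            have := congrArg Fin.val he
            simp at this
            omega), smul_zero, zero_zsmul, zero_zsmul, add_zero]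
        · intro hj
          exact absurd (Finset.mem_univ _) hj
      obtain ⟨s, hs⟩ := singleton_of_torsion hΔ hW hinW hk htor
      exact ⟨s, hs, k, hk, htor s (by rw [hs]; exact Set.mem_singleton s)⟩

theorem exists_degLE {N n : ℕ} (E : Sec N n) : ∃ D, 1 ≤ D ∧ E.DegLE D := by
  refine ⟨1 + E.A.totalDegree + E.B.totalDegree + ∑ j, ((E.X j).totalDegree +
    (E.T j).totalDegree), by omega, by omega, by omega, fun j => ?_⟩
  have h := Finset.single_le_sum (f := fun j => (E.X j).totalDegree + (E.T j).totalDegree)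
    (fun _ _ => Nat.zero_le _) (Finset.mem_univ j)
  omega

/-- The vector `(λ, c μ)`. -/
def sclR (c n : ℕ) : (Fin (n + n) → ℤ) →ₗ[ℤ] (Fin (n + n) → ℤ) where
  toFun v := Fin.append (fun j => v (Fin.castAdd n j)) (fun j => (c : ℤ) * v (Fin.natAdd n j))
  map_add' v w := by
    funext i
    refine Fin.addCases (fun j => ?_) (fun j => ?_) i
    · simp only [Pi.add_apply, Fin.append_left]
    · simp only [Pi.add_apply, Fin.append_right]
      ring
  map_smul' k v := by
    funext i
    refine Fin.addCases (fun j => ?_) (fun j => ?_) i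
    · simp only [Pi.smul_apply, Fin.append_left, smul_eq_mul, RingHom.id_apply]
    · simp only [Pi.smul_apply, Fin.append_right, smul_eq_mul, RingHom.id_apply]
      ring

theorem sclR_left (c n : ℕ) (v : Fin (n + n) → ℤ) (j : Fin n) :
    sclR c n v (Fin.castAdd n j) = v (Fin.castAdd n j) := by
  simp only [sclR, LinearMap.coe_mk, AddHom.coe_mk, Fin.append_left]

theorem sclR_right (c n : ℕ) (v : Fin (n + n) → ℤ) (j : Fin n) :
    sclR c n v (Fin.natAdd n j) = (c : ℤ) * v (Fin.natAdd n j) := by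
  simp only [sclR, LinearMap.coe_mk, AddHom.coe_mk, Fin.append_right]

theorem sclR_injective {c : ℕ} (hc : 0 < c) (n : ℕ) : Function.Injective (sclR c n) := by
  intro v w h
  have hc' : (c : ℤ) ≠ 0 := by omega
  funext i
  refine Fin.addCases (fun j => ?_) (fun j => ?_) i
  · have h1 := congrFun h (Fin.castAdd n j)
    rwa [sclR_left, sclR_left] at h1
  · have h1 := congrFun h (Fin.natAdd n j)
    rw [sclR_right, sclR_right] at h1
    exact mul_left_cancel₀ hc' h1

theorem sclR_rel {A B : ℂ} (cm : CM A B) {n : ℕ} {s : Fin (n + n) → ℂ}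
    (hs : ∀ j : Fin n, s (Fin.natAdd n j) ^ 2 =
      s (Fin.castAdd n j) ^ 3 + A * s (Fin.castAdd n j) + B) (v : Fin (n + n) → ℤ)
    (hv : v ∈ (scheme cm n).rel (eval s)) : Rel cm (sclR cm.c n v) s := by
  classical
  rw [rel_iff cm hs] at hv
  rw [Rel, ← hv]
  refine Finset.sum_congr rfl fun j _ => ?_
  rw [sclR_left, sclR_right]
  module

theorem result (A B : ℂ) (hΔ : 4 * A ^ 3 + 27 * B ^ 2 ≠ 0) (cm : CM A B) (n r : ℕ) (hr : 1 ≤ r) :
    ∃ c : ℕ, ∀ (m : ℕ) (V : Set (Fin (n + n) → ℂ)), (idealOf V).IsPrime → InPower A B V →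
    zdim V = (m : Cardinal) →
    Deg m (idealOf V) ≠ ⊤ ∧
    (∀ B' : ℕ, 2 ≤ B' → TypicalAllBut cm V m r B'
      (c * Deg m (idealOf V) * (B' : ℝ≥0∞) ^ (2 * (n * r - 1)) * (Nat.log 2 B' : ℝ≥0∞) ^ r)) ∧
    ∀ N : ℕ, SubgroupDimGE cm V N → ∀ δ ≤ r, δ + min m (r - 1) ≤ N * (r - min m (r - 1)) →
      ∀ B' : ℕ, 2 ≤ B' → TypicalAllBut cm V m r B'
        (c * Deg m (idealOf V) * (B' : ℝ≥0∞) ^ (2 * (n * r - δ)) *
          (Nat.log 2 B' : ℝ≥0∞) ^ r) := by
  classical
  obtain ⟨D, hD, hE⟩ := exists_degLE (scheme cm n)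
  have h2n : 2 ∣ n + n := ⟨n, by ring⟩
  choose c₀ hC using fun δ : Fin (r + 1) => main (n + n) (n + n) r (2 * δ) D 2 hD h2n
  set K : ℕ := (∑ δ, c₀ δ) * cm.c ^ ((n + n) * r) * (Nat.log 2 cm.c + 2) ^ r with hK
  refine ⟨K, fun m V hV hin hm => ?_⟩
  have hc1 : 1 ≤ cm.c := cm.pos
  have hm' : dimQ (idealOf V) = m := by
    rw [dimQ]
    change Cardinal.toNat (zdim V) = m
    rw [hm, Cardinal.toNat_natCast]
  have hon := on_of hΔ cm hin
  obtain ⟨D', hD'⟩ := deg_lt_top hV
  rw [hm'] at hD'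
  have hγ : ∀ P, (scheme cm n).Adm P → idealOf V ≤ P →
      2 ∣ Module.finrank ℤ ((scheme cm n).L P) := by
    refine (scheme cm n).two_dvd (mulC cm n) (cm.c * cm.a) (cm.c ^ 2 * cm.b) (mulC_sq cm n) ?_ ?_
    · have h1 : ((cm.c : ℤ) * cm.a) ^ 2 + 4 * ((cm.c : ℤ) ^ 2 * cm.b) =
          (cm.c : ℤ) ^ 2 * (cm.a ^ 2 + 4 * cm.b) := by ring
      rw [h1]
      exact mul_neg_of_pos_of_neg (by positivity) cm.neg
    · intro s hs _ v hv
      refine mulC_rel cm (fun j => ?_) v hv
      have h1 : (X (Fin.natAdd n j) ^ 2 - (X (Fin.castAdd n j) ^ 3 +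
          C A * X (Fin.castAdd n j) + C B) : MvPolynomial (Fin (n + n)) ℂ) ∈ idealOf V := by
        rw [mem_idealOf]
        intro t ht
        have h2 := hin t ht j
        simp only [map_sub, map_add, map_mul, map_pow, eval_X, eval_C]
        linear_combination h2
      have h2 := hs _ h1
      simp only [map_sub, map_add, map_mul, map_pow, eval_X, eval_C] at h2
      linear_combination h2
  have hbound : ∀ (δ : Fin (r + 1)) (B' : ℕ), 2 ≤ B' →
      ((c₀ δ * (cm.c * B') ^ ((n + n) * r - 2 * δ) * Nat.log 2 (cm.c * B') ^ r : ℕ) : ℝ≥0∞) *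
        Deg (dimQ (idealOf V)) (idealOf V) ≤
      (K : ℝ≥0∞) * Deg m (idealOf V) * (B' : ℝ≥0∞) ^ (2 * (n * r - δ)) *
        (Nat.log 2 B' : ℝ≥0∞) ^ r := by
    intro δ B' hB'
    rw [hm']
    have hl1 : 1 ≤ Nat.log 2 B' := Nat.log_pos (by norm_num) hB'
    have hlog : Nat.log 2 (cm.c * B') ≤ (Nat.log 2 cm.c + 2) * Nat.log 2 B' := by
      have h1 : cm.c * B' < 2 ^ (Nat.log 2 cm.c + 1) * 2 ^ (Nat.log 2 B' + 1) :=
        Nat.mul_lt_mul'' (Nat.lt_pow_succ_log_self (by norm_num) _)
          (Nat.lt_pow_succ_log_self (by norm_num) _)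
      rw [← pow_add] at h1
      have h2 : Nat.log 2 (cm.c * B') < Nat.log 2 cm.c + 1 + (Nat.log 2 B' + 1) :=
        Nat.log_lt_of_lt_pow (by positivity) h1
      nlinarith [Nat.zero_le (Nat.log 2 cm.c)]
    have hexp : (n + n) * r - 2 * δ = 2 * (n * r - δ) := by
      rw [Nat.mul_sub]
      congr 1
      ring
    have h3 : c₀ δ * (cm.c * B') ^ ((n + n) * r - 2 * δ) * Nat.log 2 (cm.c * B') ^ r ≤
        K * (B' ^ (2 * (n * r - δ)) * Nat.log 2 B' ^ r) := by
      calc c₀ δ * (cm.c * B') ^ ((n + n) * r - 2 * δ) * Nat.log 2 (cm.c * B') ^ r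
          ≤ (∑ δ, c₀ δ) * (cm.c ^ ((n + n) * r) * B' ^ (2 * (n * r - δ))) *
            ((Nat.log 2 cm.c + 2) * Nat.log 2 B') ^ r := by
            refine Nat.mul_le_mul (Nat.mul_le_mul ?_ ?_) (Nat.pow_le_pow_left hlog r)
            · exact Finset.single_le_sum (f := c₀) (fun _ _ => Nat.zero_le _) (Finset.mem_univ δ)
            · rw [mul_pow, hexp]
              refine Nat.mul_le_mul_right _ (Nat.pow_le_pow_right hc1 ?_)
              rw [← hexp]
              exact Nat.sub_le _ _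
        _ = K * (B' ^ (2 * (n * r - δ)) * Nat.log 2 B' ^ r) := by
            rw [hK, mul_pow]
            ring
    calc ((c₀ δ * (cm.c * B') ^ ((n + n) * r - 2 * δ) * Nat.log 2 (cm.c * B') ^ r : ℕ) : ℝ≥0∞) *
          Deg m (idealOf V)
        ≤ ((K * (B' ^ (2 * (n * r - δ)) * Nat.log 2 B' ^ r) : ℕ) : ℝ≥0∞) * Deg m (idealOf V) :=
          mul_le_mul' (Nat.cast_le.2 h3) le_rfl
      _ = _ := by
          push_cast
          ring
  have hcB : ∀ B' : ℕ, 2 ≤ B' → 2 ≤ cm.c * B' := fun B' hB' => by nlinarith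
  have key : ∀ (δ : Fin (r + 1)),
      (∀ u < r, u ≤ dimQ (idealOf V) →
        Module.finrank ℤ ((scheme cm n).relOn V) + 2 * u + 2 ≤ n + n →
        (∀ u' < u, 2 * u' + 2 * δ ≤ 2 * (1 + u') * (r - u')) ∧
        (n + n + 2) * u + Module.finrank ℤ ((scheme cm n).relOn V) * (r - u) + 2 * δ ≤
          (n + n) * r) →
      ∀ B' : ℕ, 2 ≤ B' → TypicalAllBut cm V m r B'
        ((K : ℝ≥0∞) * Deg m (idealOf V) * (B' : ℝ≥0∞) ^ (2 * (n * r - δ)) *
          (Nat.log 2 B' : ℝ≥0∞) ^ r) := by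
    intro δ hcond B' hB'
    have h1 := hC δ (scheme cm n) hE V hV hon hγ hcond (cm.c * B') (hcB B' hB')
    obtain ⟨Ex, hEx, h2⟩ := typical_of_main hΔ cm hin hm' h1
    exact ⟨Ex, hEx.trans (hbound δ B' hB'), h2⟩
  refine ⟨fun h => ?_, fun B' hB' => ?_, fun N hN δ hδ hδN B' hB' => ?_⟩
  · rw [h, top_le_iff] at hD'
    exact ENNReal.natCast_ne_top D' hD'
  · refine key ⟨1, by omega⟩ ?_ B' hB'
    intro u hur hum hcase
    change (∀ u' < u, 2 * u' + 2 * 1 ≤ 2 * (1 + u') * (r - u')) ∧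
      (n + n + 2) * u + Module.finrank ℤ ((scheme cm n).relOn V) * (r - u) + 2 * 1 ≤ (n + n) * r
    constructor
    · intro u' hu'
      have h1 : 2 * (1 + u') * 1 ≤ 2 * (1 + u') * (r - u') := Nat.mul_le_mul_left _ (by omega)
      omega
    · generalize Module.finrank ℤ ((scheme cm n).relOn V) = ρ at hcase
      obtain ⟨e, he⟩ : ∃ e, n + n = ρ + 2 * u + 2 + e := ⟨n + n - (ρ + 2 * u + 2), by omega⟩
      obtain ⟨k, hk⟩ : ∃ k, r = u + 1 + k := ⟨r - (u + 1), by omega⟩
      have hru : r - u = k + 1 := by omega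
      rw [hru, he, hk]
      nlinarith [Nat.zero_le (u * k), Nat.zero_le (e * k), Nat.zero_le (e * u)]
  · refine key ⟨δ, by omega⟩ ?_ B' hB'
    intro u hur hum hcase
    rw [hm'] at hum
    change (∀ u' < u, 2 * u' + 2 * δ ≤ 2 * (1 + u') * (r - u')) ∧
      (n + n + 2) * u + Module.finrank ℤ ((scheme cm n).relOn V) * (r - u) + 2 * δ ≤ (n + n) * r
    have hρN : Module.finrank ℤ ((scheme cm n).relOn V) + 2 * N ≤ n + n := by
      have h1 := hN (((scheme cm n).relOn V).map (sclR cm.c n)) (by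
        rintro _ ⟨v, hv, rfl⟩ s hs
        exact sclR_rel cm (hin s hs) v ((scheme cm n).mem_relOn.1 hv s hs))
      have h2 := (Submodule.equivMapOfInjective (sclR cm.c n) (sclR_injective cm.pos n)
        ((scheme cm n).relOn V)).finrank_eq
      rw [← h2] at h1
      omega
    set v := min m (r - 1) with hv
    have huv : u ≤ v := by omega
    constructor
    · intro u' hu'
      have h1 : u' * 2 ≤ u' * (r - u') := Nat.mul_le_mul_left _ (by omega)
      have h2 : 2 * (1 + u') * (r - u') = 2 * (r - u') + 2 * (u' * (r - u')) := by ring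
      rw [h2]
      omega
    · generalize Module.finrank ℤ ((scheme cm n).relOn V) = ρ at hρN
      have h1 : N * (r - v) ≤ N * (r - u) := Nat.mul_le_mul_left _ (by omega)
      obtain ⟨k, hk⟩ : ∃ k, r = u + k := ⟨r - u, by omega⟩
      have hru : r - u = k := by omega
      rw [hru] at h1 ⊢
      obtain ⟨e, he⟩ : ∃ e, n + n = ρ + 2 * N + e := ⟨n + n - (ρ + 2 * N), by omega⟩
      have h2 : δ + u ≤ N * k := by omega
      rw [hk, he]
      nlinarith [Nat.zero_le (e * k), Nat.zero_le (N * u), Nat.zero_le (e * u)]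

end Pool.Agent.Results.MP_dd1803_nt.AlmostAllSubgroupsCM
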